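import Pool.Agent.W184.NV.Defs

/-! Bohr's correspondence as an inequality (project NV). -/

set_option autoImplicit false

namespace Pool.Agent.W925.NV

open Pool.Agent.W184.NV
open MeasureTheory Filter Topology

noncomputable section

/-- evaluation of a Dirichlet polynomial supported in `S` at a multiplicative function -/
def Lv {S : Submonoid ℕ} (φ : S →* ℂ) : MonoidAlgebra ℂ S →ₐ[ℂ] ℂ := MonoidAlgebra.lift ℂ ℂ S φ

theorem Lv_apply {S : Submonoid ℕ} (φ : S →* ℂ) (h : MonoidAlgebra ℂ S) :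
    Lv φ h = ∑ n ∈ h.coeff.support, h.coeff n * φ n := by
  unfold Lv
  rw [MonoidAlgebra.lift_apply]
  rfl

/-- `n ↦ n^(-it)` -/
def pht (S : Submonoid ℕ) (t : ℝ) (_hS : 0 ∉ S) : S →* ℂ where
  toFun n := ((n : ℕ) : ℂ) ^ (-((t : ℂ) * Complex.I))
  map_one' := by simp
  map_mul' m n := by
    rw [Submonoid.coe_mul, Nat.cast_mul, Complex.natCast_mul_natCast_cpow]

theorem pht_apply (S : Submonoid ℕ) (t : ℝ) (hS : 0 ∉ S) (n : S) :
    pht S t hS n = Complex.exp (-(Real.log ((n : ℕ) : ℝ) : ℂ) * t * Complex.I) := by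
  have hn : ((n : ℕ) : ℂ) ≠ 0 := by
    intro h
    have : (n : ℕ) = 0 := by exact_mod_cast h
    exact hS (this ▸ n.2)
  show ((n : ℕ) : ℂ) ^ (-((t : ℂ) * Complex.I)) = _
  rw [Complex.cpow_def_of_ne_zero hn, ← Complex.natCast_log]
  congr 1
  ring

theorem expand {S : Submonoid ℕ} (φ : S →* ℂ) (h : MonoidAlgebra ℂ S) :
    ((‖Lv φ h‖ ^ 2 : ℝ) : ℂ) = ∑ m ∈ h.coeff.support, ∑ n ∈ h.coeff.support,
      h.coeff m * (starRingEnd ℂ) (h.coeff n) * (φ m * (starRingEnd ℂ) (φ n)) := by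
  rw [← Complex.normSq_eq_norm_sq, ← Complex.mul_conj, Lv_apply, map_sum, Finset.sum_mul_sum]
  apply Finset.sum_congr rfl
  intro m _
  apply Finset.sum_congr rfl
  intro n _
  rw [map_mul]
  ring

theorem diag {S : Submonoid ℕ} (h : MonoidAlgebra ℂ S) :
    ∑ m ∈ h.coeff.support, ∑ n ∈ h.coeff.support,
      h.coeff m * (starRingEnd ℂ) (h.coeff n) * (if m = n then (1:ℂ) else 0) =
      ((∑ n ∈ h.coeff.support, ‖h.coeff n‖ ^ 2 : ℝ) : ℂ) := by
  push_cast
  apply Finset.sum_congr rfl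
  intro m hm
  rw [Finset.sum_eq_single m]
  · rw [if_pos rfl, mul_one, Complex.mul_conj, Complex.normSq_eq_norm_sq]
    push_cast; rfl
  · intro n _ hne
    rw [if_neg (Ne.symm hne), mul_zero]
  · intro hm'
    exact absurd hm hm'

theorem mean_exp (x : ℝ) : Tendsto (fun T : ℝ => (1 / (2 * T) : ℂ) *
    ∫ t in (-T)..T, Complex.exp ((x : ℂ) * t * Complex.I)) atTop (𝓝 (if x = 0 then 1 else 0)) := by
  by_cases hx : x = 0
  · rw [if_pos hx]
    apply tendsto_const_nhds.congr'
    filter_upwards [eventually_gt_atTop (0:ℝ)] with T hT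
    have hT' : (T : ℂ) ≠ 0 := by exact_mod_cast hT.ne'
    simp only [hx, Complex.ofReal_zero, zero_mul, Complex.exp_zero, intervalIntegral.integral_const]
    rw [Complex.real_smul]
    push_cast
    field_simp
    ring
  · rw [if_neg hx]
    have hc : (x : ℂ) * Complex.I ≠ 0 := by
      apply mul_ne_zero _ Complex.I_ne_zero
      exact_mod_cast hx
    rw [tendsto_zero_iff_norm_tendsto_zero]
    have h2 : Tendsto (fun T : ℝ => 1 / |x| * T⁻¹) atTop (𝓝 0) := by
      have := tendsto_inv_atTop_zero.const_mul (1 / |x|) (M := ℝ)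
      rwa [mul_zero] at this
    apply squeeze_zero' _ _ h2
    · exact Eventually.of_forall (fun T => norm_nonneg _)
    · filter_upwards [eventually_gt_atTop (0:ℝ)] with T hT
      have h1 : (∫ t in (-T)..T, Complex.exp ((x : ℂ) * t * Complex.I)) =
          (Complex.exp (x * Complex.I * T) - Complex.exp (x * Complex.I * (-T : ℝ))) /
            (x * Complex.I) := by
        rw [← integral_exp_mul_complex hc]
        congr 1
        ext t
        congr 1
        ring
      rw [h1, norm_mul, norm_div (_ - _) _]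
      have h3 : ‖Complex.exp (x * Complex.I * T) - Complex.exp (x * Complex.I * (-T : ℝ))‖ ≤ 2 := by
        refine (norm_sub_le _ _).trans ?_
        have e1 : ‖Complex.exp (x * Complex.I * T)‖ = 1 := by
          rw [show (x : ℂ) * Complex.I * T = ((x * T : ℝ) : ℂ) * Complex.I by push_cast; ring]
          exact Complex.norm_exp_ofReal_mul_I _
        have e2 : ‖Complex.exp (x * Complex.I * (-T : ℝ))‖ = 1 := by
          rw [show (x : ℂ) * Complex.I * (-T : ℝ) = ((x * (-T) : ℝ) : ℂ) * Complex.I by push_cast; ring]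
          exact Complex.norm_exp_ofReal_mul_I _
        rw [e1, e2]; norm_num
      have h4 : ‖(x : ℂ) * Complex.I‖ = |x| := by simp
      have h5 : ‖(1 / (2 * T) : ℂ)‖ = 1 / (2 * T) := by
        rw [show (1 / (2 * T) : ℂ) = ((1 / (2 * T) : ℝ) : ℂ) by push_cast; ring,
          Complex.norm_real, Real.norm_eq_abs, abs_of_pos (by positivity)]
      rw [h4, h5]
      have hxp : 0 < |x| := abs_pos.mpr hx
      calc 1 / (2 * T) * (‖Complex.exp (x * Complex.I * T) - Complex.exp (x * Complex.I * (-T : ℝ))‖ / |x|)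
          ≤ 1 / (2 * T) * (2 / |x|) := by gcongr
        _ = 1 / |x| * T⁻¹ := by field_simp

theorem mean_pair (S : Submonoid ℕ) (hS : 0 ∉ S) (m n : S) :
    Tendsto (fun T : ℝ => (1 / (2 * T) : ℂ) *
      ∫ t in (-T)..T, pht S t hS m * (starRingEnd ℂ) (pht S t hS n)) atTop
      (𝓝 (if m = n then 1 else 0)) := by
  have hm : (0:ℝ) < ((m : ℕ) : ℝ) := by
    have : (m : ℕ) ≠ 0 := fun h => hS (h ▸ m.2)
    exact_mod_cast Nat.pos_of_ne_zero this
  have hn : (0:ℝ) < ((n : ℕ) : ℝ) := by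
    have : (n : ℕ) ≠ 0 := fun h => hS (h ▸ n.2)
    exact_mod_cast Nat.pos_of_ne_zero this
  have key : ∀ t : ℝ, pht S t hS m * (starRingEnd ℂ) (pht S t hS n) =
      Complex.exp (((Real.log ((n : ℕ) : ℝ) - Real.log ((m : ℕ) : ℝ) : ℝ) : ℂ) * t * Complex.I) := by
    intro t
    rw [pht_apply, pht_apply, ← Complex.exp_conj, ← Complex.exp_add]
    congr 1
    simp only [map_mul, map_neg, Complex.conj_ofReal, Complex.conj_I]
    push_cast
    ring
  have h := mean_exp (Real.log ((n : ℕ) : ℝ) - Real.log ((m : ℕ) : ℝ))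
  have heq : (if Real.log ((n : ℕ) : ℝ) - Real.log ((m : ℕ) : ℝ) = 0 then (1:ℂ) else 0) =
      if m = n then 1 else 0 := by
    by_cases hmn : m = n
    · subst hmn; simp
    · rw [if_neg hmn, if_neg]
      intro h0
      apply hmn
      have h1 : Real.log ((n : ℕ) : ℝ) = Real.log ((m : ℕ) : ℝ) := by linarith
      have h2 := Real.log_injOn_pos (Set.mem_Ioi.mpr hn) (Set.mem_Ioi.mpr hm) h1
      apply Subtype.ext
      exact_mod_cast h2.symm
  rw [heq] at h
  refine h.congr ?_
  intro T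
  congr 1
  apply intervalIntegral.integral_congr
  intro t _
  simp only
  rw [key t]

theorem pht_cont (S : Submonoid ℕ) (hS : 0 ∉ S) (n : S) : Continuous (fun t : ℝ => pht S t hS n) := by
  simp_rw [pht_apply]
  fun_prop

theorem Lv_pht_cont (S : Submonoid ℕ) (hS : 0 ∉ S) (h : MonoidAlgebra ℂ S) :
    Continuous (fun t : ℝ => Lv (pht S t hS) h) := by
  simp_rw [Lv_apply]
  apply continuous_finsetSum
  intro n _
  exact continuous_const.mul (pht_cont S hS n)

theorem mean_sq_T (S : Submonoid ℕ) (hS : 0 ∉ S) (h : MonoidAlgebra ℂ S) :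
    Tendsto (fun T : ℝ => 1 / (2 * T) * ∫ t in (-T)..T, ‖Lv (pht S t hS) h‖ ^ 2) atTop
      (𝓝 (∑ n ∈ h.coeff.support, ‖h.coeff n‖ ^ 2)) := by
  have h1 : Tendsto (fun T : ℝ => ∑ m ∈ h.coeff.support, ∑ n ∈ h.coeff.support,
      h.coeff m * (starRingEnd ℂ) (h.coeff n) * ((1 / (2 * T) : ℂ) *
      ∫ t in (-T)..T, pht S t hS m * (starRingEnd ℂ) (pht S t hS n))) atTop
      (𝓝 (∑ m ∈ h.coeff.support, ∑ n ∈ h.coeff.support,
      h.coeff m * (starRingEnd ℂ) (h.coeff n) * (if m = n then (1:ℂ) else 0))) := by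
    apply tendsto_finsetSum
    intro m _
    apply tendsto_finsetSum
    intro n _
    exact (mean_pair S hS m n).const_mul _
  rw [diag] at h1
  have h2 : ∀ T : ℝ, (∑ m ∈ h.coeff.support, ∑ n ∈ h.coeff.support,
      h.coeff m * (starRingEnd ℂ) (h.coeff n) * ((1 / (2 * T) : ℂ) *
      ∫ t in (-T)..T, pht S t hS m * (starRingEnd ℂ) (pht S t hS n))) =
      ((1 / (2 * T) * ∫ t in (-T)..T, ‖Lv (pht S t hS) h‖ ^ 2 : ℝ) : ℂ) := by
    intro T
    have hint : ∀ m n : S, IntervalIntegrable (fun t : ℝ => h.coeff m * (starRingEnd ℂ) (h.coeff n) *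
        (pht S t hS m * (starRingEnd ℂ) (pht S t hS n))) volume (-T) T := by
      intro m n
      apply Continuous.intervalIntegrable
      exact continuous_const.mul ((pht_cont S hS m).mul
        (Complex.continuous_conj.comp (pht_cont S hS n)))
    rw [Complex.ofReal_mul, ← intervalIntegral.integral_ofReal]
    simp_rw [expand]
    rw [intervalIntegral.integral_finsetSum]
    · rw [Finset.mul_sum]
      apply Finset.sum_congr rfl
      intro m _
      rw [intervalIntegral.integral_finsetSum (fun n _ => hint m n), Finset.mul_sum]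
      apply Finset.sum_congr rfl
      intro n _
      rw [intervalIntegral.integral_const_mul]
      push_cast
      ring
    · intro m _
      apply Continuous.intervalIntegrable
      apply continuous_finsetSum
      intro n _
      exact continuous_const.mul ((pht_cont S hS m).mul
        (Complex.continuous_conj.comp (pht_cont S hS n)))
  simp_rw [h2] at h1
  have h3 := (Complex.continuous_re.tendsto _).comp h1
  simp only [Function.comp_def, Complex.ofReal_re] at h3
  exact h3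

theorem Lv_norm_le {S : Submonoid ℕ} (φ : S →* ℂ) (hφ : ∀ n, ‖φ n‖ = 1) (h : MonoidAlgebra ℂ S) :
    ‖Lv φ h‖ ≤ ∑ n ∈ h.coeff.support, ‖h.coeff n‖ := by
  rw [Lv_apply]
  refine (norm_sum_le _ _).trans ?_
  apply Finset.sum_le_sum
  intro n _
  rw [norm_mul, hφ, mul_one]

theorem pht_norm (S : Submonoid ℕ) (hS : 0 ∉ S) (t : ℝ) (n : S) : ‖pht S t hS n‖ = 1 := by
  rw [pht_apply, show -(Real.log ((n : ℕ) : ℝ) : ℂ) * t * Complex.I =
    ((-Real.log ((n : ℕ) : ℝ) * t : ℝ) : ℂ) * Complex.I by push_cast; ring]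
  exact Complex.norm_exp_ofReal_mul_I _

section Om

variable {Ω : Type} [MeasurableSpace Ω] (μ : Measure Ω) [IsProbabilityMeasure μ]
  (S : Submonoid ℕ) (ψ : Ω → S →* ℂ) (hmeas : ∀ n, Measurable fun ω => ψ ω n)
  (hnorm : ∀ ω n, ‖ψ ω n‖ = 1)
  (horth : ∀ m n, ∫ ω, ψ ω m * (starRingEnd ℂ) (ψ ω n) ∂μ = if m = n then 1 else 0)

include hmeas in
theorem Lv_psi_meas (h : MonoidAlgebra ℂ S) : Measurable (fun ω => Lv (ψ ω) h) := by
  simp_rw [Lv_apply]
  apply Finset.measurable_sum
  intro n _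
  exact (hmeas n).const_mul _

include hmeas hnorm horth in
theorem mean_sq_Om (h : MonoidAlgebra ℂ S) :
    ∫ ω, ‖Lv (ψ ω) h‖ ^ 2 ∂μ = ∑ n ∈ h.coeff.support, ‖h.coeff n‖ ^ 2 := by
  have hint : ∀ m n : S, Integrable (fun ω => h.coeff m * (starRingEnd ℂ) (h.coeff n) *
        (ψ ω m * (starRingEnd ℂ) (ψ ω n))) μ := by
    intro m n
    apply Integrable.const_mul
    apply Integrable.of_bound (C := 1)
    · exact ((hmeas m).mul (Complex.continuous_conj.measurable.comp (hmeas n))).aestronglyMeasurable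
    · filter_upwards with ω
      rw [norm_mul, RCLike.norm_conj, hnorm, hnorm]; norm_num
  have h1 : ((∫ ω, ‖Lv (ψ ω) h‖ ^ 2 ∂μ : ℝ) : ℂ) =
      ((∑ n ∈ h.coeff.support, ‖h.coeff n‖ ^ 2 : ℝ) : ℂ) := by
    rw [← diag, ← integral_complex_ofReal]
    simp_rw [expand]
    rw [integral_finsetSum]
    · apply Finset.sum_congr rfl
      intro m _
      rw [integral_finsetSum _ (fun n _ => hint m n)]
      apply Finset.sum_congr rfl
      intro n _
      rw [integral_const_mul, horth]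
    · intro m _
      exact integrable_finsetSum _ (fun n _ => hint m n)
  exact_mod_cast h1

end Om

theorem bohr : S_Bohr := by
  intro Ω _ μ hμ χ S hS hmeas hnorm horth g hg ε hε
  -- set up
  set G : MonoidAlgebra ℂ S := MonoidAlgebra.ofCoeff (g.subtypeDomain (· ∈ S)) with hG
  set ψ : Ω → S →* ℂ := fun ω => (χ ω).comp S.subtype with hψ
  have hψm : ∀ n, Measurable fun ω => ψ ω n := fun n => hmeas (n : ℕ)
  have hψn : ∀ ω n, ‖ψ ω n‖ = 1 := fun ω n => hnorm ω n n.2
  have hψo : ∀ m n, ∫ ω, ψ ω m * (starRingEnd ℂ) (ψ ω n) ∂μ = if m = n then 1 else 0 := by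
    intro m n
    have := horth m m.2 n n.2
    simp only [Subtype.ext_iff] at this ⊢
    exact this
  have hD : ∀ t : ℝ, DV g (t * Complex.I) = Lv (pht S t hS) G := by
    intro t
    unfold DV Lv
    rw [MonoidAlgebra.lift_apply]
    rw [← Finsupp.sum_subtypeDomain_index (p := (· ∈ S)) hg]
    rfl
  have hE : ∀ ω, (g.sum fun n a => a * χ ω n) = Lv (ψ ω) G := by
    intro ω
    unfold Lv
    rw [MonoidAlgebra.lift_apply]
    rw [← Finsupp.sum_subtypeDomain_index (p := (· ∈ S)) hg]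
    rfl
  simp_rw [hD, hE]
  set B := ∑ n ∈ G.coeff.support, ‖G.coeff n‖ with hB
  have hB0 : 0 ≤ B := Finset.sum_nonneg (fun n _ => norm_nonneg _)
  have hDB : ∀ t : ℝ, ‖Lv (pht S t hS) G‖ ≤ B := fun t => Lv_norm_le _ (pht_norm S hS t) G
  have hEB : ∀ ω, ‖Lv (ψ ω) G‖ ≤ B := fun ω => Lv_norm_le _ (hψn ω) G
  -- Weierstrass
  obtain ⟨R, hR⟩ := exists_polynomial_near_of_continuousOn 0 (B ^ 2) Real.sqrt
    Real.continuous_sqrt.continuousOn (ε / 4) (by positivity)
  have hmem : ∀ z : ℂ, ‖z‖ ≤ B → ‖z‖ ^ 2 ∈ Set.Icc 0 (B ^ 2) := fun z hz =>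
    ⟨by positivity, pow_le_pow_left₀ (norm_nonneg _) hz 2⟩
  have hR1 : ∀ z : ℂ, ‖z‖ ≤ B → |R.eval (‖z‖ ^ 2) - ‖z‖| < ε / 4 := by
    intro z hz
    have := hR _ (hmem z hz)
    rwa [Real.sqrt_sq (norm_nonneg _)] at this
  -- polynomials
  have hpow : ∀ (φ : S →* ℂ) (k : ℕ), (‖Lv φ G‖ ^ 2) ^ k = ‖Lv φ (G ^ k)‖ ^ 2 := by
    intro φ k
    rw [map_pow, norm_pow]
    ring
  have hcD : Continuous fun t : ℝ => ‖Lv (pht S t hS) G‖ := (Lv_pht_cont S hS G).norm
  have hmE : Measurable fun ω => ‖Lv (ψ ω) G‖ := (Lv_psi_meas S ψ hψm G).norm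
  have hlimR : Tendsto (fun T : ℝ => 1 / (2 * T) * ∫ t in (-T)..T, R.eval (‖Lv (pht S t hS) G‖ ^ 2))
      atTop (𝓝 (∫ ω, R.eval (‖Lv (ψ ω) G‖ ^ 2) ∂μ)) := by
    have e1 : ∀ x : ℝ, R.eval x = ∑ k ∈ Finset.range (R.natDegree + 1), R.coeff k * x ^ k :=
      fun x => Polynomial.eval_eq_sum_range x
    have e2 : ∫ ω, R.eval (‖Lv (ψ ω) G‖ ^ 2) ∂μ = ∑ k ∈ Finset.range (R.natDegree + 1),
        R.coeff k * ∑ n ∈ (G ^ k).coeff.support, ‖(G ^ k).coeff n‖ ^ 2 := by
      simp_rw [e1, hpow]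
      rw [integral_finsetSum]
      · apply Finset.sum_congr rfl
        intro k _
        rw [integral_const_mul, mean_sq_Om μ S ψ hψm hψn hψo]
      · intro k _
        apply Integrable.const_mul
        refine Integrable.of_bound
          ((Lv_psi_meas S ψ hψm (G ^ k)).norm.pow_const 2).aestronglyMeasurable
          ((∑ n ∈ (G ^ k).coeff.support, ‖(G ^ k).coeff n‖) ^ 2) ?_
        filter_upwards with ω
        rw [Real.norm_eq_abs, abs_of_nonneg (by positivity)]
        exact pow_le_pow_left₀ (norm_nonneg _) (Lv_norm_le _ (hψn ω) _) 2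
    rw [e2]
    have e3 : ∀ T : ℝ, 1 / (2 * T) * ∫ t in (-T)..T, R.eval (‖Lv (pht S t hS) G‖ ^ 2) =
        ∑ k ∈ Finset.range (R.natDegree + 1), R.coeff k *
          (1 / (2 * T) * ∫ t in (-T)..T, ‖Lv (pht S t hS) (G ^ k)‖ ^ 2) := by
      intro T
      simp_rw [e1, hpow]
      rw [intervalIntegral.integral_finsetSum, Finset.mul_sum]
      · apply Finset.sum_congr rfl
        intro k _
        rw [intervalIntegral.integral_const_mul]
        ring
      · intro k _
        apply Continuous.intervalIntegrable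
        exact continuous_const.mul ((Lv_pht_cont S hS (G ^ k)).norm.pow 2)
    simp_rw [e3]
    apply tendsto_finsetSum
    intro k _
    exact (mean_sq_T S hS (G ^ k)).const_mul _
  -- comparison
  have hEint : Integrable (fun ω => ‖Lv (ψ ω) G‖) μ := by
    apply Integrable.of_bound (C := B)
    · exact hmE.aestronglyMeasurable
    · filter_upwards with ω
      rw [norm_norm]; exact hEB ω
  have hERint : Integrable (fun ω => R.eval (‖Lv (ψ ω) G‖ ^ 2)) μ := by
    have hm : Measurable (fun ω => R.eval (‖Lv (ψ ω) G‖ ^ 2)) :=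
      R.continuous.measurable.comp (hmE.pow_const 2)
    apply Integrable.of_bound (C := B + ε / 4)
    · exact hm.aestronglyMeasurable
    · filter_upwards with ω
      rw [Real.norm_eq_abs]
      have h1 := hR1 _ (hEB ω)
      have h2 := hEB ω
      have h3 := norm_nonneg (Lv (ψ ω) G)
      rw [abs_lt] at h1
      rw [abs_le]
      constructor <;> linarith
  have hEle : ∫ ω, R.eval (‖Lv (ψ ω) G‖ ^ 2) ∂μ ≤ (∫ ω, ‖Lv (ψ ω) G‖ ∂μ) + ε / 4 := by
    have : (∫ ω, ‖Lv (ψ ω) G‖ ∂μ) + ε / 4 = ∫ ω, (‖Lv (ψ ω) G‖ + ε / 4) ∂μ := by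
      rw [integral_add hEint (integrable_const _)]
      simp
    rw [this]
    apply integral_mono hERint (hEint.add (integrable_const _))
    intro ω
    have h1 := hR1 _ (hEB ω)
    rw [abs_lt] at h1
    simp only [Pi.add_apply]
    linarith
  have hev := hlimR.eventually (ge_mem_nhds (show (∫ ω, R.eval (‖Lv (ψ ω) G‖ ^ 2) ∂μ) <
    (∫ ω, R.eval (‖Lv (ψ ω) G‖ ^ 2) ∂μ) + ε / 4 by linarith))
  filter_upwards [hev, eventually_gt_atTop (0:ℝ)] with T hT hT0
  have hle : ∫ t in (-T)..T, ‖Lv (pht S t hS) G‖ ≤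
      ∫ t in (-T)..T, (R.eval (‖Lv (pht S t hS) G‖ ^ 2) + ε / 4) := by
    apply intervalIntegral.integral_mono_on (by linarith) (hcD.intervalIntegrable _ _)
    · apply Continuous.intervalIntegrable
      exact (R.continuous.comp (hcD.pow 2)).add continuous_const
    · intro t _
      have h1 := hR1 _ (hDB t)
      rw [abs_lt] at h1
      linarith
  rw [intervalIntegral.integral_add] at hle
  · rw [intervalIntegral.integral_const] at hle
    have h2T : 0 < 1 / (2 * T) := by positivity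
    have h3 := mul_le_mul_of_nonneg_left hle h2T.le
    rw [mul_add] at h3
    have h4 : 1 / (2 * T) * ((T - -T) • (ε / 4)) = ε / 4 := by
      rw [smul_eq_mul]; field_simp; ring
    rw [h4] at h3
    linarith
  · apply Continuous.intervalIntegrable
    exact R.continuous.comp (hcD.pow 2)
  · exact continuous_const.intervalIntegrable _ _

end

end Pool.Agent.W925.NV
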